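import Pool.Agent.N73.Dir.Marked

set_option autoImplicit false

/-!
# Components of virtually nilpotent groups are directed

`G ⪯ H` (`Preceq G H` below, defined through isomorphisms of labelled balls of Cayley graphs exactly as
in the problem) is a preorder on finitely generated groups.  A connected component is a class of the
equivalence relation generated by `⪯`.  We prove that every connected component that contains a
virtually nilpotent group is directed: every finite subset has an upper bound in the component.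

Idea.  Let `G ⪯ H₁` and `G ⪯ H₂` with `G` virtually nilpotent.  Choose a homomorphism `π` of `G` onto
a finite group `F` with torsion-free nilpotent kernel.  It induces `πᵢ : Hᵢ → F` with the same property
and with the same identities over `F` (words that vanish on all tuples over a given tuple of `F`).
The quotient `U` of a free group by the identities over a suitable tuple `f` of `F` is a common upper
bound: `Hᵢ` has generating tuples over `f` that violate any given finite set of non-identities.  These
are found by the Chinese remainder theorem from finite `p`-quotients for different primes `p`.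
-/

namespace Pool.Agent.Results.MP_81bbc5_al.Directed

open Subgroup Pool.Agent.N73.Dir

/-- finitely generated groups (in `Type`; every finitely generated group is countable, so every
isomorphism class is represented) -/
structure FGGrp where
  /-- the underlying type -/
  carrier : Type
  /-- the group structure -/
  [group : Group carrier]
  /-- finite generation -/
  [fg : Group.FG carrier]

attribute [instance] FGGrp.group FGGrp.fg

/-- The ball of radius `R` about the identity in the Cayley graph of `G` with respect to `S`: the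
products of at most `R` factors each of which is in `S` or inverse to an element of `S`. -/
def ball {G : Type} [Group G] (S : Set G) (R : ℕ) : Set G :=
  {g | ∃ l : List G, l.length ≤ R ∧ (∀ x ∈ l, x ∈ S ∨ x⁻¹ ∈ S) ∧ l.prod = g}

theorem one_mem_ball {G : Type} [Group G] (S : Set G) (R : ℕ) : (1 : G) ∈ ball S R :=
  ⟨[], by simp, by simp, by simp⟩

/-- The balls of radius `R` about the identity in `Cay(G,S)` and `Cay(H,T)` are isomorphic as
(rooted) graphs whose edges `x → x s` are labelled by `s ∈ S`, resp. by `T`, the labels being matched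
via the bijection `e : S ≃ T`. -/
def SameBall {G H : Type} [Group G] [Group H] (S : Set G) (T : Set H) (e : S ≃ T) (R : ℕ) : Prop :=
  ∃ φ : ball S R ≃ ball T R, (φ ⟨1, one_mem_ball S R⟩ : H) = 1 ∧
    ∀ (x y : ball S R) (s : S), (x : G) * (s : G) = (y : G) ↔ (φ x : H) * (e s : H) = (φ y : H)

/-- `G ⪯ H`: there are a finite generating set `T` of `H`, finite generating sets `S 0, S 1, …` of `G`
and bijections `e n : S n ≃ T` such that for every `R` and all sufficiently large `n` the labelled
balls of radius `R` in `Cay(G, S n)` and `Cay(H, T)` are isomorphic. -/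
def Preceq (G H : Type) [Group G] [Group H] : Prop :=
  ∃ T : Set H, T.Finite ∧ closure T = ⊤ ∧ ∃ (S : ℕ → Set G) (e : ∀ n, S n ≃ T),
    (∀ n, (S n).Finite ∧ closure (S n) = ⊤) ∧ ∀ R : ℕ, ∃ N : ℕ, ∀ n ≥ N, SameBall (S n) T (e n) R

/-- the relation `⪯` on finitely generated groups -/
def Below (A B : FGGrp) : Prop := Preceq A.carrier B.carrier

/-- `A` and `B` lie in the same connected component of the underlying undirected graph of `⪯` -/
def Connected (A B : FGGrp) : Prop := Relation.EqvGen Below A B

theorem preceq_iff (G H : Type) [Group G] [Group H] :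
    Preceq G H ↔ Pool.Agent.N73.Dir.Preceq G H := Iff.rfl

theorem exists_tuple (G : Type) [Group G] [hG : Group.FG G] :
    ∃ T : Set G, T.Finite ∧ closure T = ⊤ ∧ closure (Set.range (Subtype.val : T → G)) = ⊤ := by
  obtain ⟨T, hT⟩ := hG.1
  exact ⟨T, T.finite_toSet, hT, by rw [Subtype.range_coe]; exact hT⟩

theorem ap_iff {ι : Type} [Finite ι] {G H : Type} [Group G] [Group H] {t : ι → H}
    (ht : closure (Set.range t) = ⊤) : Preceq G H ↔ Ap G t := by
  rw [preceq_iff]
  constructor
  · intro h
    obtain ⟨T, hT, hgen, hA⟩ := ap_of_preceq h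
    have : Finite T := hT
    exact ap_indep (by rw [Subtype.range_coe]; exact hgen) hA ht
  · intro h
    have h1 : closure (Set.range (Subtype.val : (Set.range t) → H)) = ⊤ := by
      rw [Subtype.range_coe]; exact ht
    exact preceq_of_ap (Set.range t) (Set.finite_range t) ht (ap_indep ht h h1)

theorem below_refl (A : FGGrp) : Below A A := by
  obtain ⟨T, hT, h1, h2⟩ := exists_tuple A.carrier
  have : Finite T := hT
  exact (ap_iff h2).mpr fun W => ⟨_, trivial, h2, fun w _ => Iff.rfl⟩

theorem below_trans {A B C : FGGrp} (h1 : Below A B) (h2 : Below B C) : Below A C := by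
  obtain ⟨T, hT, h3, h4⟩ := exists_tuple C.carrier
  have : Finite T := hT
  refine (ap_iff h4).mpr fun W => ?_
  obtain ⟨s, -, h5, h6⟩ := (ap_iff h4).mp h2 W
  obtain ⟨g, -, h7, h8⟩ := (ap_iff h5).mp h1 W
  exact ⟨g, trivial, h7, fun w hw => (h8 w hw).trans (h6 w hw)⟩

theorem vn_up {A B : FGGrp} (h : Below A B) (hA : Group.IsVirtuallyNilpotent A.carrier) :
    Group.IsVirtuallyNilpotent B.carrier := by
  obtain ⟨F, _, _, π, hπ⟩ := exists_good A.carrier hA
  obtain ⟨T, hT, h3, h4⟩ := exists_tuple B.carrier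
  have : Finite T := hT
  obtain ⟨πB, hπB, -⟩ := transport π hπ _ h4 ((ap_iff h4).mp h)
  exact ⟨πB.ker, hπB.nil, inferInstance⟩

theorem vn_down' {A B : FGGrp} (h : Below A B) (hB : Group.IsVirtuallyNilpotent B.carrier) :
    Group.IsVirtuallyNilpotent A.carrier := by
  obtain ⟨T, hT, h3, h4⟩ := exists_tuple B.carrier
  have : Finite T := hT
  exact vn_down _ h4 ((ap_iff h4).mp h) hB

/-- a finitely generated subgroup is generated by `m` elements for all large `m` -/
theorem exists_gens {H : Type} [Group H] (N : Subgroup H) [hN : Group.FG N] :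
    ∃ m₀ : ℕ, ∀ m ≥ m₀, ∃ x : Fin m → H, closure (Set.range x) = N := by
  classical
  obtain ⟨S, hS⟩ := hN.1
  refine ⟨S.card, fun m hm => ?_⟩
  let x : Fin m → H := fun i => if h : (i : ℕ) < S.card then ((S.equivFin.symm ⟨i, h⟩ : N) : H) else 1
  refine ⟨x, le_antisymm ?_ ?_⟩
  · rw [closure_le]
    rintro _ ⟨i, rfl⟩
    by_cases h : (i : ℕ) < S.card
    · simp only [x, dif_pos h]
      exact Subtype.property _
    · simp only [x, dif_neg h]
      exact N.one_mem
  · have h1 : N = (closure (S : Set N)).map N.subtype := by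
      rw [hS, ← MonoidHom.range_eq_map, range_subtype]
    rw [h1, MonoidHom.map_closure, closure_le]
    rintro _ ⟨s, hs, rfl⟩
    apply Subgroup.subset_closure
    have hlt : ((S.equivFin ⟨s, hs⟩ : Fin S.card) : ℕ) < m := lt_of_lt_of_le (Fin.is_lt _) hm
    refine ⟨⟨(S.equivFin ⟨s, hs⟩ : Fin S.card), hlt⟩, ?_⟩
    have h2 : ((⟨(S.equivFin ⟨s, hs⟩ : Fin S.card), hlt⟩ : Fin m) : ℕ) < S.card :=
      (S.equivFin ⟨s, hs⟩ : Fin S.card).is_lt
    simp only [x, dif_pos h2]
    simp

/-- **Amalgamation.** -/
theorem amalgam {A B₁ B₂ : FGGrp} (hA : Group.IsVirtuallyNilpotent A.carrier) (h₁ : Below A B₁)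
    (h₂ : Below A B₂) : ∃ U : FGGrp, Below B₁ U ∧ Below B₂ U := by
  classical
  obtain ⟨F, _, _, π, hπ⟩ := exists_good A.carrier hA
  obtain ⟨T₁, hT₁, -, h4₁⟩ := exists_tuple B₁.carrier
  obtain ⟨T₂, hT₂, -, h4₂⟩ := exists_tuple B₂.carrier
  have : Finite T₁ := hT₁
  have : Finite T₂ := hT₂
  obtain ⟨π₁, hπ₁, hId₁⟩ := transport π hπ _ h4₁ ((ap_iff h4₁).mp h₁)
  obtain ⟨π₂, hπ₂, hId₂⟩ := transport π hπ _ h4₂ ((ap_iff h4₂).mp h₂)
  have hf₁ : π₁.ker.FiniteIndex := inferInstance
  have hf₂ : π₂.ker.FiniteIndex := inferInstance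
  have hg₁ : Group.FG π₁.ker := π₁.ker.fg_of_index_ne_zero
  have hg₂ : Group.FG π₂.ker := π₂.ker.fg_of_index_ne_zero
  obtain ⟨m₁, hm₁⟩ := exists_gens π₁.ker
  obtain ⟨m₂, hm₂⟩ := exists_gens π₂.ker
  let m := m₁ + m₂
  obtain ⟨x₁, hx₁⟩ := hm₁ m (Nat.le_add_right _ _)
  obtain ⟨x₂, hx₂⟩ := hm₂ m (Nat.le_add_left _ _)
  -- the relatively free group over `F`
  let D : Subgroup (FreeGroup (Ix m F)) :=
    ⨅ h : {h : Ix m F → B₁.carrier // Over π₁ (base m F) h}, (FreeGroup.lift h.1).ker
  have hD : D.Normal := Subgroup.normal_iInf_normal fun h => inferInstance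
  have hmem₁ : ∀ w, w ∈ D ↔ ∀ h, Over π₁ (base m F) h → FreeGroup.lift h w = 1 := by
    intro w
    simp only [D, Subgroup.mem_iInf, MonoidHom.mem_ker, Subtype.forall]
  have hmem₂ : ∀ w, w ∈ D ↔ ∀ h, Over π₂ (base m F) h → FreeGroup.lift h w = 1 := by
    intro w
    rw [hmem₁, hId₁, hId₂]
  let t : Ix m F → FreeGroup (Ix m F) ⧸ D := fun i => QuotientGroup.mk' D (FreeGroup.of i)
  have hlift : FreeGroup.lift t = QuotientGroup.mk' D := by
    ext i
    simp [t]
  have ht : closure (Set.range t) = ⊤ := by
    rw [← FreeGroup.range_lift_eq_closure, hlift, MonoidHom.range_eq_top]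
    exact QuotientGroup.mk'_surjective D
  have hfg : Group.FG (FreeGroup (Ix m F) ⧸ D) := inferInstance
  have key : ∀ (B : FGGrp) (ρ : B.carrier →* F) (hρ : Good ρ) (x : Fin m → B.carrier)
      (hx : closure (Set.range x) = ρ.ker)
      (hmem : ∀ w, w ∈ D ↔ ∀ h, Over ρ (base m F) h → FreeGroup.lift h w = 1),
      Ap B.carrier t := by
    intro B ρ hρ x hx hmem W
    obtain ⟨h, hover, hgen, hne⟩ := generic ρ inferInstance hρ m x hx (W.filter (· ∉ D)) (by
      intro w hw
      have h1 := (Finset.mem_filter.mp hw).2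
      rw [hmem] at h1
      push Not at h1
      exact h1)
    refine ⟨h, trivial, hgen, fun w hw => ?_⟩
    rw [hlift]
    constructor
    · intro h1
      by_contra h2
      have h3 : w ∉ D := fun h3 => h2 ((QuotientGroup.eq_one_iff w).mpr h3)
      exact hne w (Finset.mem_filter.mpr ⟨hw, h3⟩) h1
    · intro h1
      exact (hmem w).mp ((QuotientGroup.eq_one_iff w).mp h1) h hover
  exact ⟨⟨FreeGroup (Ix m F) ⧸ D⟩, (ap_iff ht).mpr (key B₁ π₁ hπ₁ x₁ hx₁ hmem₁),
    (ap_iff ht).mpr (key B₂ π₂ hπ₂ x₂ hx₂ hmem₂)⟩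

theorem connected_key {A B : FGGrp} (h : Connected A B) :
    (Group.IsVirtuallyNilpotent A.carrier → Group.IsVirtuallyNilpotent B.carrier) ∧
    (Group.IsVirtuallyNilpotent B.carrier → Group.IsVirtuallyNilpotent A.carrier) ∧
    (Group.IsVirtuallyNilpotent A.carrier → ∃ U : FGGrp, Below A U ∧ Below B U) := by
  induction h with
  | rel A B h => exact ⟨vn_up h, vn_down' h, fun _ => ⟨B, h, below_refl B⟩⟩
  | refl A => exact ⟨id, id, fun _ => ⟨A, below_refl A, below_refl A⟩⟩
  | symm A B _ ih =>
    refine ⟨ih.2.1, ih.1, fun hB => ?_⟩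
    obtain ⟨U, h1, h2⟩ := ih.2.2 (ih.2.1 hB)
    exact ⟨U, h2, h1⟩
  | trans A B C _ _ ih1 ih2 =>
    refine ⟨fun h => ih2.1 (ih1.1 h), fun h => ih1.2.1 (ih2.2.1 h), fun hA => ?_⟩
    obtain ⟨U, h1, h2⟩ := ih1.2.2 hA
    obtain ⟨V, h3, h4⟩ := ih2.2.2 (ih1.1 hA)
    obtain ⟨X, h5, h6⟩ := amalgam (ih1.1 hA) h2 h3
    exact ⟨X, below_trans h1 h5, below_trans h4 h6⟩

/-- **Every connected component that contains a virtually nilpotent group is directed.**
`C` is the connected component of the finitely generated group `A₀`; if some group in `C` is virtually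
nilpotent then every finite subset `S` of `C` has an upper bound `U` in `C`. -/
theorem result (A₀ : FGGrp) (C : Set FGGrp) (hC : C = {B | Connected A₀ B})
    (hvn : ∃ B ∈ C, Group.IsVirtuallyNilpotent B.carrier) :
    ∀ S : Set FGGrp, S.Finite → S ⊆ C → ∃ U ∈ C, ∀ A ∈ S, Below A U := by
  subst hC
  obtain ⟨B₀, hB₀, hv⟩ := hvn
  have hv₀ : Group.IsVirtuallyNilpotent A₀.carrier := (connected_key hB₀).2.1 hv
  intro S hS
  induction S, hS using Set.Finite.induction_on with
  | empty => exact fun _ => ⟨A₀, Relation.EqvGen.refl A₀, by simp⟩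
  | @insert A S _ _ ih =>
    intro hSC
    obtain ⟨U, hU, h1⟩ := ih fun B hB => hSC (Set.mem_insert_of_mem _ hB)
    have hA : Connected A₀ A := hSC (Set.mem_insert _ _)
    have hU' : Connected A₀ U := hU
    have hvA : Group.IsVirtuallyNilpotent A.carrier := (connected_key hA).1 hv₀
    have hAU : Connected A U := (Relation.EqvGen.symm _ _ hA).trans _ _ _ hU'
    obtain ⟨V, h2, h3⟩ := (connected_key hAU).2.2 hvA
    refine ⟨V, hA.trans _ _ _ (Relation.EqvGen.rel _ _ h2), ?_⟩
    intro B hB
    rcases Set.mem_insert_iff.mp hB with rfl | hB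
    · exact h2
    · exact below_trans (h1 B hB) h3

end Pool.Agent.Results.MP_81bbc5_al.Directed
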